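import Pool.Agent.TH824.BK.Main

open IsDedekindDomain MeasureTheory
open scoped WithZero RestrictedProduct

noncomputable section

namespace TH824.LL

/-! Comparison of the definitions in `LL/Defs.lean` (used in the statement) with those of `BK/Defs.lean`
(used in the proofs): the same types with abbreviations unfolded. -/

lemma nmat_eq {F : Type} [Field F] (x : F) : nmat x = TH824.BK.nmat x := Units.ext rfl

lemma nA_eq (x : AK) : nA x = TH824.BK.nA x := by
  refine Prod.ext ?_ (nmat_eq _)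
  apply RestrictedProduct.ext
  intro v
  exact nmat_eq _

lemma autForm {F : GA → ℂ} (h : TH824.BK.IsAutForm F) : IsAutForm F :=
  ⟨h.left_inv, h.smooth, h.admissible⟩

lemma cuspForm {F : GA → ℂ} (h : TH824.BK.IsCuspForm F) : IsCuspForm F := by
  refine ⟨autForm h.toIsAutForm, fun g μ hμ => ?_⟩
  have := @TH824.BK.IsCuspForm.cuspidal F h g μ hμ
  rw [← this]
  simp only [nA_eq]
  rfl

lemma automorphic {π : SmoothIrrep GA} (h : TH824.BK.IsAutomorphic π) : IsAutomorphic π := by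
  obtain ⟨X, hX, hX', T, hT, hT'⟩ := h
  exact ⟨X, fun F hF => autForm (hX F hF), hX', T, hT, fun g F hF => hT' g ⟨F, hF⟩⟩

lemma cuspidal {π : SmoothIrrep GA} (h : TH824.BK.IsCuspidal π) : IsCuspidal π := by
  obtain ⟨X, hX, hX', T, hT, hT'⟩ := h
  exact ⟨X, fun F hF => cuspForm (hX F hF), hX', T, hT, fun g F hF => hT' g ⟨F, hF⟩⟩

/-- comparison of Hecke characters -/
def hecke (χ : TH824.BK.HeckeChar) : HeckeChar where
  fin := χ.fin
  inf := χ.inf
  smooth_fin := χ.smooth_fin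
  smooth_inf := χ.smooth_inf
  unram := χ.unram
  prod_eq_one := χ.prod_eq_one

lemma locSum {F : Type} [Field F] [Valued F ℤᵐ⁰] {q : ℕ} {χ₁ χ₂ : Fˣ →* ℂˣ}
    {σ : SmoothIrrep (G2 F)} (h : TH824.BK.IsLocSum q χ₁ χ₂ σ) : IsLocSum q χ₁ χ₂ σ := h

lemma isobaric {P : SmoothIrrep GA} (h : TH824.BK.IsIsobaric P) : IsIsobaric P := by
  rcases h with h | ⟨h, χ₁, χ₂, h1, h2⟩
  · exact Or.inl (cuspidal h)
  · exact Or.inr ⟨automorphic h, hecke χ₁, hecke χ₂, h1, h2⟩

lemma lift {π P : SmoothIrrep GA} (h : TH824.BK.IsLift π P) : IsLift π P :=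
  ⟨isobaric h.1, h.2.1, h.2.2⟩

theorem not_localLiftExists : ¬ LocalLiftExists := by
  rintro ⟨l, hl⟩
  exact TH824.BK.not_localLiftExists
    ⟨l, fun π P h1 h2 σ τ h3 h4 => hl π P (automorphic h1) (lift h2) σ τ h3 h4⟩

end TH824.LL
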