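import Mathlib

/-!
# Local liftings compatible with global functorial liftings: definitions for the statement

The instance of Q1 considered: `K = F_2(t)`, the place `∞`, `F = K_∞ = F_2((1/t))`, `G = GL_2`, `L = F`
(so `Γ` is trivial) and `ρ = id : GL_2(ℂ) → GL_2(ℂ)`.
-/

open IsDedekindDomain MeasureTheory
open scoped WithZero RestrictedProduct

noncomputable section

namespace TH824.LL

/-! ### The global field, its places and completions -/

/-- `F_2[t]`. -/
abbrev Rx : Type := Polynomial (ZMod 2)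

/-- The global field `K = F_2(t)`. -/
abbrev Kx : Type := RatFunc (ZMod 2)

/-- The finite places of `K` (all places but `∞`): the nonzero prime ideals of `F_2[t]`. -/
abbrev Pl : Type := HeightOneSpectrum Rx

/-- The completion `K_v` of `K` at a finite place `v`. -/
def Kv (v : Pl) : Type := v.adicCompletion Kx

instance instFieldKv (v : Pl) : Field (Kv v) := (inferInstance : Field (v.adicCompletion Kx))

instance instValuedKv (v : Pl) : Valued (Kv v) ℤᵐ⁰ :=
  (inferInstance : Valued (v.adicCompletion Kx) ℤᵐ⁰)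

/-- `K → K_v`. -/
def toKv (v : Pl) : Kx →+* Kv v := algebraMap Kx (v.adicCompletion Kx)

/-- The completion `F = F_2((1/t))` of `K` at the place `∞`. -/
def Kinf : Type := @RatFunc.CompletionAtInfty (ZMod 2) _ (Classical.decEq _)

instance instFieldKinf : Field Kinf :=
  (inferInstance : Field (@RatFunc.CompletionAtInfty (ZMod 2) _ (Classical.decEq _)))

instance instValuedKinf : Valued Kinf ℤᵐ⁰ :=
  (inferInstance : Valued (@RatFunc.CompletionAtInfty (ZMod 2) _ (Classical.decEq _)) ℤᵐ⁰)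

/-- `K → K_∞`. -/
def toKinf : Kx →+* Kinf :=
  letI : DecidableEq (RatFunc (ZMod 2)) := Classical.decEq _
  algebraMap Kx (RatFunc.CompletionAtInfty (ZMod 2))

/-! ### The group `GL_2` over a field -/

/-- `GL_2(F)`. -/
def G2 (F : Type) [Field F] : Type := Matrix.GeneralLinearGroup (Fin 2) F

instance instGroupG2 (F : Type) [Field F] : Group (G2 F) :=
  (inferInstance : Group (Matrix.GeneralLinearGroup (Fin 2) F))

instance instTopG2 (F : Type) [Field F] [Valued F ℤᵐ⁰] : TopologicalSpace (G2 F) :=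
  (inferInstance : TopologicalSpace (Matrix.GeneralLinearGroup (Fin 2) F))

/-- The underlying matrix. -/
def mat {F : Type} [Field F] (g : G2 F) : Matrix (Fin 2) (Fin 2) F :=
  Units.val (α := Matrix (Fin 2) (Fin 2) F) g

/-- `GL_2(F) → GL_2(E)` for a homomorphism of fields `F → E`. -/
def gmap {F E : Type} [Field F] [Field E] (f : F →+* E) (g : G2 F) : G2 E :=
  Matrix.GeneralLinearGroup.map f g

/-- `g ∈ GL_2(O)`: entries of valuation at most `1`, determinant of valuation `1`. -/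
def InGO {F : Type} [Field F] [Valued F ℤᵐ⁰] (g : G2 F) : Prop :=
  (∀ i j, Valued.v (mat g i j) ≤ 1) ∧ Valued.v (mat g).det = 1

lemma InGO.one {F : Type} [Field F] [Valued F ℤᵐ⁰] : InGO (1 : G2 F) := by
  have h : mat (1 : G2 F) = 1 := rfl
  refine ⟨fun i j => ?_, by rw [h]; simp⟩
  rw [h]
  by_cases h : i = j
  · subst h; simp
  · simp [Matrix.one_apply_ne h]

lemma InGO.mul {F : Type} [Field F] [Valued F ℤᵐ⁰] {a b : G2 F} (ha : InGO a) (hb : InGO b) :
    InGO (a * b) := by
  have h : mat (a * b) = mat a * mat b := rfl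
  refine ⟨fun i j => ?_, ?_⟩
  · rw [h]
    simp only [Matrix.mul_apply, Fin.sum_univ_two]
    refine (Valuation.map_add _ _ _).trans (max_le ?_ ?_)
    · rw [map_mul]; exact mul_le_one' (ha.1 _ _) (hb.1 _ _)
    · rw [map_mul]; exact mul_le_one' (ha.1 _ _) (hb.1 _ _)
  · rw [h, Matrix.det_mul, map_mul, ha.2, hb.2, one_mul]

lemma InGO.inv {F : Type} [Field F] [Valued F ℤᵐ⁰] {a : G2 F} (ha : InGO a) : InGO a⁻¹ := by
  obtain ⟨ha, ha'⟩ := ha
  have hm : mat a⁻¹ * mat a = 1 := by
    have : mat (a⁻¹ * a) = mat a⁻¹ * mat a := rfl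
    rw [← this, inv_mul_cancel]; rfl
  have hdet : Valued.v (mat a⁻¹).det = 1 := by
    have h1 : (mat a⁻¹).det * (mat a).det = 1 := by
      rw [← Matrix.det_mul, hm]; simp
    have h2 := congrArg Valued.v h1
    rw [map_mul, ha', mul_one, map_one] at h2
    exact h2
  refine ⟨fun i j => ?_, hdet⟩
  have hinv : mat a⁻¹ = ((mat a).det)⁻¹ • (mat a).adjugate := by
    have := Matrix.inv_eq_left_inv hm
    rw [← this, Matrix.inv_def, Ring.inverse_eq_inv']
  rw [hinv, Matrix.smul_apply, smul_eq_mul, map_mul, map_inv₀, ha', inv_one, one_mul,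
    Matrix.adjugate_fin_two]
  fin_cases i <;> fin_cases j <;> simp [Valuation.map_neg, ha]

/-- The maximal compact subgroup `GL_2(O)` of `GL_2(F)`. -/
def GO (F : Type) [Field F] [Valued F ℤᵐ⁰] : Subgroup (G2 F) where
  carrier := {g | InGO g}
  one_mem' := InGO.one
  mul_mem' := InGO.mul
  inv_mem' := InGO.inv

/-- The upper unipotent matrix with entry `x`. -/
def nmat {F : Type} [Field F] (x : F) : G2 F :=
  Matrix.GeneralLinearGroup.mkOfDetNeZero !![1, x; 0, 1] (by simp)

/-- The upper triangular matrix with diagonal `(a, d)` and entry `x`. -/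
def bmat {F : Type} [Field F] (a d : Fˣ) (x : F) : G2 F :=
  Matrix.GeneralLinearGroup.mkOfDetNeZero !![(a : F), x; 0, (d : F)] (by simp)

/-! ### The adelic group -/

/-- The group of finite adeles of `GL_2`: the restricted product of the `GL_2(K_v)` with respect
to the `GL_2(O_v)`. -/
def Gfin : Type := Πʳ v : Pl, [G2 (Kv v), GO (Kv v)]

instance instGroupGfin : Group Gfin := (inferInstance : Group (Πʳ v : Pl, [G2 (Kv v), GO (Kv v)]))

instance instTopGfin : TopologicalSpace Gfin :=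
  (inferInstance : TopologicalSpace (Πʳ v : Pl, [G2 (Kv v), GO (Kv v)]))

/-- `G(A) = GL_2(A_K)`. -/
def GA : Type := Gfin × G2 Kinf

instance instGroupGA : Group GA := (inferInstance : Group (Gfin × G2 Kinf))

instance instTopGA : TopologicalSpace GA := (inferInstance : TopologicalSpace (Gfin × G2 Kinf))

/-- The element of `GL_2(A_K)` with given components. -/
def mkGA (x : ∀ v : Pl, G2 (Kv v)) (hx : ∀ᶠ v in Filter.cofinite, InGO (x v)) (y : G2 Kinf) : GA :=
  (⟨x, hx⟩, y)

open Classical in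
lemma eventually_InGO_mulSingle (v : Pl) (g : G2 (Kv v)) :
    ∀ᶠ w in Filter.cofinite, InGO ((Pi.mulSingle v g : ∀ w, G2 (Kv w)) w) := by
  refine Filter.mem_of_superset (Set.Finite.compl_mem_cofinite (Set.finite_singleton v)) ?_
  intro w hw
  have hw' : w ≠ v := hw
  simp only [Set.mem_ofPred_eq]
  rw [Pi.mulSingle_eq_of_ne hw']
  exact InGO.one

open Classical in
/-- `GL_2(K_v) → GL_2(A_K)` for a finite place `v`: the component at `v` is `g`, all others are `1`. -/
def iv (v : Pl) (g : G2 (Kv v)) : GA :=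
  mkGA (Pi.mulSingle v g) (eventually_InGO_mulSingle v g) 1

/-- `GL_2(K_∞) → GL_2(A_K)`. -/
def iinf (g : G2 Kinf) : GA := (1, g)

lemma eventually_val_le (x : Kx) : ∀ᶠ v : Pl in Filter.cofinite, Valued.v (toKv v x) ≤ 1 := by
  have h := (algebraMap Kx (FiniteAdeleRing Rx Kx) x).2
  filter_upwards [h] with v hv
  exact hv

lemma eventually_InGO_gmap (γ : G2 Kx) :
    ∀ᶠ v : Pl in Filter.cofinite, InGO (gmap (toKv v) γ) := by
  have h1 : ∀ᶠ v : Pl in Filter.cofinite, ∀ i j, Valued.v (toKv v (mat γ i j)) ≤ 1 := by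
    rw [Filter.eventually_all]; intro i
    rw [Filter.eventually_all]; intro j
    exact eventually_val_le _
  have h2 := eventually_val_le (mat γ).det
  have h3 := eventually_val_le ((mat γ).det)⁻¹
  filter_upwards [h1, h2, h3] with v h1 h2 h3
  have hm : ∀ i j, mat (gmap (toKv v) γ) i j = toKv v (mat γ i j) := fun i j => rfl
  refine ⟨fun i j => by rw [hm]; exact h1 i j, ?_⟩
  have hdet : (mat (gmap (toKv v) γ)).det = toKv v (mat γ).det := by
    rw [Matrix.det_fin_two, Matrix.det_fin_two, map_sub, map_mul, map_mul]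
    simp only [hm]
  rw [hdet]
  apply le_antisymm h2
  rw [map_inv₀, map_inv₀] at h3
  have hd : (mat γ).det ≠ 0 := by
    have h := Matrix.GeneralLinearGroup.det (n := Fin 2) (R := Kx) γ
    exact (Matrix.GeneralLinearGroup.det (n := Fin 2) (R := Kx) γ).ne_zero
  have hne : Valued.v (toKv v (mat γ).det) ≠ 0 := by
    rw [Valuation.ne_zero_iff, Ne, map_eq_zero]
    exact hd
  exact (inv_le_one₀ (zero_lt_iff.mpr hne)).mp h3

/-- The diagonal embedding `GL_2(K) → GL_2(A_K)`. -/
def idiag (γ : G2 Kx) : GA :=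
  mkGA (fun v => gmap (toKv v) γ) (eventually_InGO_gmap γ) (gmap toKinf γ)

/-- The adele ring `A_K`. -/
def AK : Type := FiniteAdeleRing Rx Kx × Kinf

instance instRingAK : CommRing AK := (inferInstance : CommRing (FiniteAdeleRing Rx Kx × Kinf))

instance instTopAK : TopologicalSpace AK :=
  (inferInstance : TopologicalSpace (FiniteAdeleRing Rx Kx × Kinf))

/-- `K → A_K`. -/
def toAK : Kx →+* AK := RingHom.prod (algebraMap Kx (FiniteAdeleRing Rx Kx)) toKinf

/-- `K` as an additive subgroup of `A_K`. -/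
def KA : AddSubgroup AK := toAK.toAddMonoidHom.range

/-- The compact group `A_K / K`. -/
def QA : Type := AK ⧸ KA

instance instGroupQA : AddCommGroup QA := (inferInstance : AddCommGroup (AK ⧸ KA))

instance instTopQA : TopologicalSpace QA := (inferInstance : TopologicalSpace (AK ⧸ KA))

instance instMeasQA : MeasurableSpace QA := borel _

/-- A representative in `A_K` of a class. -/
def outQA (x : QA) : AK := Quotient.out (s := QuotientAddGroup.leftRel KA) x

lemma eventually_InGO_nmat (x : AK) :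
    ∀ᶠ v : Pl in Filter.cofinite, InGO (nmat (F := Kv v) (x.1 v)) := by
  filter_upwards [x.1.2] with v hv
  have hv' : Valued.v (show Kv v from x.1 v) ≤ 1 := hv
  refine ⟨fun i j => ?_, by simp [nmat, mat, Matrix.GeneralLinearGroup.mkOfDetNeZero]⟩
  fin_cases i <;> fin_cases j <;>
    simp [nmat, mat, Matrix.GeneralLinearGroup.mkOfDetNeZero, hv']

/-- `x ↦ [[1, x], [0, 1]]`, `A_K → GL_2(A_K)`. -/
def nA (x : AK) : GA :=
  mkGA (fun v => nmat (F := Kv v) (x.1 v)) (eventually_InGO_nmat x) (nmat x.2)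

/-! ### Smooth irreducible representations -/

/-- Irreducible smooth complex representations of a topological group. -/
structure SmoothIrrep (G : Type) [Group G] [TopologicalSpace G] where
  /-- the space -/
  V : Type
  [acg : AddCommGroup V]
  [mod : Module ℂ V]
  /-- the action -/
  ρ : Representation ℂ G V
  smooth : ∀ x : V, ∃ U : Subgroup G, IsOpen (U : Set G) ∧ ∀ g ∈ U, ρ g x = x
  nontriv : ∃ x : V, x ≠ 0
  irred : ∀ W : Submodule ℂ V, (∀ g, ∀ x ∈ W, ρ g x ∈ W) → W = ⊥ ∨ W = ⊤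

attribute [instance] SmoothIrrep.acg SmoothIrrep.mod

/-- Isomorphism of representations. -/
def Iso {G : Type} [Group G] [TopologicalSpace G] (σ τ : SmoothIrrep G) : Prop :=
  ∃ e : σ.V ≃ₗ[ℂ] τ.V, ∀ g x, e (σ.ρ g x) = τ.ρ g (e x)

lemma Iso.equivalence (G : Type) [Group G] [TopologicalSpace G] :
    Equivalence (Iso : SmoothIrrep G → SmoothIrrep G → Prop) := by
  refine ⟨fun σ => ⟨LinearEquiv.refl _ _, fun _ _ => rfl⟩, ?_, ?_⟩
  · rintro σ τ ⟨e, he⟩
    refine ⟨e.symm, fun g x => ?_⟩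
    apply e.injective
    rw [he]; simp
  · rintro σ τ υ ⟨e, he⟩ ⟨f, hf⟩
    exact ⟨e.trans f, fun g x => by simp [he, hf]⟩

/-- Isomorphism as a setoid. -/
def isoSetoid (G : Type) [Group G] [TopologicalSpace G] : Setoid (SmoothIrrep G) :=
  ⟨Iso, Iso.equivalence G⟩

/-- `Irr(G)`: the set of isomorphism classes of irreducible smooth representations. -/
def Irr (G : Type) [Group G] [TopologicalSpace G] : Type 1 := Quotient (isoSetoid G)

/-- The class of a representation. -/
def cls {G : Type} [Group G] [TopologicalSpace G] (σ : SmoothIrrep G) : Irr G :=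
  Quotient.mk (isoSetoid G) σ

/-- `σ` is the component of `π` along `i : H → G` (for `G = GL_2(A_K)`, `H = GL_2(K_v)`):
there is a nonzero `H`-equivariant map `σ → π`. For an irreducible `π = ⊗' π_v` this says
exactly that `σ ≅ π_v`. -/
def IsComp {H G : Type} [Group H] [TopologicalSpace H] [Group G] [TopologicalSpace G]
    (i : H → G) (π : SmoothIrrep G) (σ : SmoothIrrep H) : Prop :=
  ∃ T : σ.V →ₗ[ℂ] π.V, T ≠ 0 ∧ ∀ h x, T (σ.ρ h x) = π.ρ (i h) (T x)

/-- `σ` is unramified: it has a nonzero vector fixed by `GL_2(O)`. -/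
def IsUnram {F : Type} [Field F] [Valued F ℤᵐ⁰] (σ : SmoothIrrep (G2 F)) : Prop :=
  ∃ x : σ.V, x ≠ 0 ∧ ∀ k ∈ GO F, σ.ρ k x = x

/-! ### Automorphic forms and automorphic representations -/

/-- Right translation of a function on `GL_2(A_K)`. -/
def rtr (g : GA) (F : GA → ℂ) : GA → ℂ := fun x => F (x * g)

/-- The representation of `GL_2(K_∞)` generated by `F`. -/
def infSpan (F : GA → ℂ) : Submodule ℂ (GA → ℂ) :=
  Submodule.span ℂ (Set.range fun g : G2 Kinf => rtr (iinf g) F)

/-- Automorphic forms on `GL_2(A_K)` (Borel-Jacquet, 5.8): functions on `GL_2(K)\GL_2(A_K)`, right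
invariant under an open subgroup, which generate an admissible representation of `GL_2(K_∞)`: the
space of vectors fixed by an open subgroup `U` of `GL_2(K_∞)` has finite dimension. -/
structure IsAutForm (F : GA → ℂ) : Prop where
  left_inv : ∀ (γ : G2 Kx) (x : GA), F (idiag γ * x) = F x
  smooth : ∃ U : Subgroup GA, IsOpen (U : Set GA) ∧ ∀ u ∈ U, ∀ x, F (x * u) = F x
  admissible : ∀ U : Subgroup (G2 Kinf), IsOpen (U : Set (G2 Kinf)) →
    ∃ s : Finset (GA → ℂ), ∀ f ∈ infSpan F, (∀ u ∈ U, rtr (iinf u) f = f) →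
      f ∈ Submodule.span ℂ (s : Set (GA → ℂ))

/-- Cusp forms: the constant terms `∫_{A_K / K} F(n(x) g) dx` vanish. -/
structure IsCuspForm (F : GA → ℂ) : Prop extends IsAutForm F where
  cuspidal : ∀ (g : GA) (μ : Measure QA) [μ.IsAddHaarMeasure],
    ∫ x : QA, F (nA (outQA x) * g) ∂μ = 0

/-- `π` is an irreducible quotient of a translation invariant space of functions on `GL_2(A_K)`
which satisfy `P`. -/
def IsSubquot (P : (GA → ℂ) → Prop) (π : SmoothIrrep GA) : Prop :=
  ∃ X : Submodule ℂ (GA → ℂ), (∀ F ∈ X, P F) ∧ ∃ hX : ∀ g, ∀ F ∈ X, rtr g F ∈ X,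
    ∃ T : X →ₗ[ℂ] π.V, Function.Surjective T ∧
      ∀ (g : GA) (F : GA → ℂ) (hF : F ∈ X), T ⟨rtr g F, hX g F hF⟩ = π.ρ g (T ⟨F, hF⟩)

/-- `π` is an automorphic representation: an irreducible subquotient of the space of
automorphic forms. -/
def IsAutomorphic (π : SmoothIrrep GA) : Prop := IsSubquot IsAutForm π

/-- `π` is a cuspidal automorphic representation. -/
def IsCuspidal (π : SmoothIrrep GA) : Prop := IsSubquot IsCuspForm π

/-! ### Isobaric representations of `GL_2(A_K)` and liftings -/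

/-- The square root of the normalized absolute value `|x| = q ^ (log v(x))`, where `q` is the
size of the residue field. -/
def sqrtAbs {F : Type} [Field F] [Valued F ℤᵐ⁰] (q : ℕ) (x : Fˣ) : ℂ :=
  ((Real.sqrt q : ℝ) : ℂ) ^ (WithZero.log (Valued.v (x : F)))

/-- The size of the residue field at a finite place. -/
def qv (v : Pl) : ℕ := Nat.card (Rx ⧸ v.asIdeal)

/-- A quasi-character of `A_K^* / K^*`, given by its local components. -/
structure HeckeChar where
  /-- components at the finite places -/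
  fin : ∀ v : Pl, (Kv v)ˣ →* ℂˣ
  /-- component at infinity -/
  inf : Kinfˣ →* ℂˣ
  smooth_fin : ∀ v, IsOpen ((fin v).ker : Set (Kv v)ˣ)
  smooth_inf : IsOpen (inf.ker : Set Kinfˣ)
  unram : ∀ᶠ v in Filter.cofinite, ∀ x : (Kv v)ˣ, Valued.v (x : Kv v) = 1 → fin v x = 1
  prod_eq_one : ∀ x : Kxˣ,
    (∏ᶠ v : Pl, fin v (Units.map (toKv v).toMonoidHom x)) *
      inf (Units.map toKinf.toMonoidHom x) = 1

/-- `φ` lies in the normalized principal series `I(χ₁, χ₂)` of `GL_2(F)`. -/
def InPS {F : Type} [Field F] [Valued F ℤᵐ⁰] (q : ℕ) (χ₁ χ₂ : Fˣ →* ℂˣ)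
    (φ : G2 F → ℂ) : Prop :=
  (∃ U : Subgroup (G2 F), IsOpen (U : Set (G2 F)) ∧ ∀ g, ∀ u ∈ U, φ (g * u) = φ g) ∧
  ∀ (a d : Fˣ) (x : F) (g : G2 F),
    φ (bmat a d x * g) = χ₁ a * χ₂ d * (sqrtAbs q a / sqrtAbs q d) * φ g

/-- `σ = χ₁ ⊞ χ₂` (local isobaric sum, i.e. Langlands quotient): for one of the two orders
`η₁, η₂` with `|η₁(x)| ≥ |η₂(x)|` for integral `x`, `σ` embeds in `I(η₁, η₂)`.
(The Langlands quotient of `I(η₂, η₁)` is the irreducible subrepresentation of `I(η₁, η₂)`.) -/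
def IsLocSum {F : Type} [Field F] [Valued F ℤᵐ⁰] (q : ℕ) (χ₁ χ₂ : Fˣ →* ℂˣ)
    (σ : SmoothIrrep (G2 F)) : Prop :=
  ∃ η₁ η₂ : Fˣ →* ℂˣ, ((η₁ = χ₁ ∧ η₂ = χ₂) ∨ (η₁ = χ₂ ∧ η₂ = χ₁)) ∧
    (∀ x : Fˣ, Valued.v (x : F) ≤ 1 → ‖((η₂ x : ℂˣ) : ℂ)‖ ≤ ‖((η₁ x : ℂˣ) : ℂ)‖) ∧
    ∃ T : σ.V →ₗ[ℂ] (G2 F → ℂ), Function.Injective T ∧ (∀ x, InPS q η₁ η₂ (T x)) ∧
      ∀ g x h, T (σ.ρ g x) h = T x (h * g)

/-- `P` is an isobaric automorphic representation of `GL_2(A_K)`: either cuspidal, or automorphic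
and equal to `χ₁ ⊞ χ₂` with quasi-characters `χ₁, χ₂` of `A_K^*/K^*`. -/
def IsIsobaric (P : SmoothIrrep GA) : Prop :=
  IsCuspidal P ∨ (IsAutomorphic P ∧ ∃ χ₁ χ₂ : HeckeChar,
    (∀ v : Pl, ∃ σ, IsComp (iv v) P σ ∧ IsLocSum (qv v) (χ₁.fin v) (χ₂.fin v) σ) ∧
    ∃ σ, IsComp iinf P σ ∧ IsLocSum 2 χ₁.inf χ₂.inf σ)

/-- `P` is a global lifting of `π` with respect to the standard representation
`ρ = id : GL_2(ℂ) → GL_2(ℂ)`: it is isobaric and `P_v = π_v` at every
place `v` where `π_v` is unramified. -/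
def IsLift (π P : SmoothIrrep GA) : Prop :=
  IsIsobaric P ∧
  (∀ v : Pl, ∀ σ : SmoothIrrep (G2 (Kv v)), IsUnram σ → IsComp (iv v) π σ → IsComp (iv v) P σ) ∧
  (∀ σ : SmoothIrrep (G2 Kinf), IsUnram σ → IsComp iinf π σ → IsComp iinf P σ)

/-- The statement of Q1 for `F = F_2((1/t))`, `G = GL_2`, `ρ = id`, restricted to `K = F_2(t)` and
the place `∞`: there is a map `l : Irr(GL_2(F)) → Irr(GL_2(F))` such that for every automorphic
representation `π` of `GL_2(A_K)` and every global lifting `P` of `π`, with components `σ` of `π`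
and `τ` of `P` at `∞`, one has `l(σ) = τ`. -/
def LocalLiftExists : Prop :=
  ∃ l : Irr (G2 Kinf) → Irr (G2 Kinf),
    ∀ π P : SmoothIrrep GA, IsAutomorphic π → IsLift π P →
      ∀ σ τ : SmoothIrrep (G2 Kinf), IsComp iinf π σ → IsComp iinf P τ → l (cls σ) = cls τ

end TH824.LL
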